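import Pool.Agent.Work.MP_34c70a_al.GFib

open Pool.Agent.Work.MP_34c70a_al

/-- In every prime characteristic there is an F-finite three dimensional Noetherian local domain
`R` with an element `f` of its maximal ideal and a prime `P` not containing `f` such that
`S = R / (f)` is F-injective, while neither `R` nor the localization of `R` at `P` is. -/
theorem Pool.Agent.Results.MP_34c70a_al.GenericFibre.result (p : ℕ) (hp : p.Prime) :
    ∃ (R S : Type) (_ : CommRing R) (_ : IsDomain R) (_ : IsLocalRing R)
      (_ : IsNoetherianRing R) (_ : CharP R p) (_ : CommRing S) (_ : IsLocalRing S)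
      (f : R) (π : R →+* S) (P : Ideal R) (_ : P.IsPrime), ringKrullDim R = 3 ∧
      (∀ F : R →+* R, (∀ x, F x = x ^ p) → F.Finite) ∧
      f ∈ IsLocalRing.maximalIdeal R ∧ f ∉ P ∧ Function.Surjective π ∧
      RingHom.ker π = Ideal.span {f} ∧ FInjective p S ∧ ¬ FInjective p R ∧
      ¬ FInjective p (Localization.AtPrime P) :=
  GF.main p hp
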