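import Pool.Agent.Work.MP_34c70a_al.N.Fin

open Pool.Agent.Work.MP_34c70a_al

/-- In every prime characteristic there is an F-finite four dimensional Noetherian local normal
domain `R` with a nonzero `f` in its maximal ideal such that `S = R / (f)` is a normal domain,
`S` is F-injective and `R` is not. -/
theorem Pool.Agent.Results.MP_34c70a_al.NormalDimFour.result (p : ℕ) (hp : p.Prime) :
    ∃ (R S : Type) (_ : CommRing R) (_ : IsDomain R) (_ : IsIntegrallyClosed R) (_ : IsLocalRing R)
      (_ : IsNoetherianRing R) (_ : CharP R p) (_ : CommRing S) (_ : IsDomain S)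
      (_ : IsIntegrallyClosed S) (_ : IsLocalRing S)
      (f : R) (π : R →+* S), ringKrullDim R = 4 ∧
      (∀ F : R →+* R, (∀ x, F x = x ^ p) → F.Finite) ∧
      f ∈ IsLocalRing.maximalIdeal R ∧ f ≠ 0 ∧ Function.Surjective π ∧
      RingHom.ker π = Ideal.span {f} ∧ FInjective p S ∧ ¬ FInjective p R :=
  N.main p hp
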